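import Mathlib

set_option autoImplicit false

/-! # Global asymptotic stability of a rational recurrence without periodic solutions

The recurrence is `x (n+1) = (∑ i, β i * x (n - i)) / (A + ∑ i, B i * x (n - i))`, `n = 0, 1, 2, ...`,
with `i` running over `0, ..., k`. A solution is recorded as a function on the integers of which only
the values at `n ≥ -k` matter. -/

namespace Pool.Agent.Results.MP_2e7467_an.PeriodDichotomy

open Filter Topology

/-- `x` is a solution: nonnegative initial values `x (-k), ..., x 0`, and the recurrence holds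
for all `n ≥ 0`. -/
def IsSolution (k : ℕ) (A : ℝ) (β B : Fin (k + 1) → ℝ) (x : ℤ → ℝ) : Prop :=
  (∀ j : ℤ, -(k : ℤ) ≤ j → j ≤ 0 → 0 ≤ x j) ∧
  ∀ n : ℤ, 0 ≤ n → x (n + 1) =
    (∑ i : Fin (k + 1), β i * x (n - (i : ℕ))) / (A + ∑ i : Fin (k + 1), B i * x (n - (i : ℕ)))

/-- `x` (on indices `n ≥ -k`) has prime period `p`. -/
def HasPrimePeriod (k : ℕ) (x : ℤ → ℝ) (p : ℕ) : Prop :=
  IsLeast {q : ℕ | 1 ≤ q ∧ ∀ n : ℤ, -(k : ℤ) ≤ n → x (n + q) = x n} p

/-- The zero equilibrium is stable. -/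
def ZeroStable (k : ℕ) (A : ℝ) (β B : Fin (k + 1) → ℝ) : Prop :=
  ∀ ε > 0, ∃ δ > 0, ∀ x : ℤ → ℝ, IsSolution k A β B x →
    (∀ j : ℤ, -(k : ℤ) ≤ j → j ≤ 0 → x j < δ) → ∀ n : ℤ, -(k : ℤ) ≤ n → x n < ε

/-- The zero equilibrium is globally asymptotically stable. -/
def ZeroGloballyAsymptoticallyStable (k : ℕ) (A : ℝ) (β B : Fin (k + 1) → ℝ) : Prop :=
  ZeroStable k A β B ∧
    ∀ x : ℤ → ℝ, IsSolution k A β B x → Tendsto (fun n : ℕ => x n) atTop (𝓝 0)

section

variable {k : ℕ} {A : ℝ} {β B : Fin (k + 1) → ℝ}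

lemma den_ge (hB : ∀ i, 0 ≤ B i) {y : Fin (k + 1) → ℝ} (hy : ∀ i, 0 ≤ y i) :
    A ≤ A + ∑ i, B i * y i := by
  have : 0 ≤ ∑ i, B i * y i := Finset.sum_nonneg fun i _ => mul_nonneg (hB i) (hy i)
  linarith

/-- a solution stays between zero and any bound of its initial values -/
lemma bounds (hA : 0 < A) (hβ : ∀ i, 0 ≤ β i) (hB : ∀ i, 0 ≤ B i) (hAβ : A = ∑ i, β i)
    {x : ℤ → ℝ} (hx : IsSolution k A β B x) {c : ℝ}
    (hc : ∀ j : ℤ, -(k : ℤ) ≤ j → j ≤ 0 → x j ≤ c) :
    ∀ n : ℤ, -(k : ℤ) ≤ n → 0 ≤ x n ∧ x n ≤ c := by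
  have key : ∀ N : ℕ, ∀ n : ℤ, -(k : ℤ) ≤ n → n ≤ N → 0 ≤ x n ∧ x n ≤ c := by
    intro N
    induction N with
    | zero =>
      intro n hn hn0
      exact ⟨hx.1 n hn (by simpa using hn0), hc n hn (by simpa using hn0)⟩
    | succ N ih =>
      intro n hn hnN
      by_cases h : n ≤ N
      · exact ih n hn h
      · have hn' : n = (N : ℤ) + 1 := by push_cast at hnN; omega
        subst hn'
        have hprev : ∀ i : Fin (k + 1), 0 ≤ x ((N : ℤ) - (i : ℕ)) ∧ x ((N : ℤ) - (i : ℕ)) ≤ c := by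
          intro i
          have hi := i.2
          exact ih _ (by omega) (by omega)
        have hden := den_ge (A := A) hB (fun i => (hprev i).1)
        have hdpos : 0 < A + ∑ i : Fin (k + 1), B i * x ((N : ℤ) - (i : ℕ)) := by linarith
        rw [hx.2 N (by omega)]
        constructor
        · exact div_nonneg (Finset.sum_nonneg fun i _ => mul_nonneg (hβ i) (hprev i).1) hdpos.le
        · rw [div_le_iff₀ hdpos]
          have h0c : 0 ≤ c := (hprev 0).1.trans (hprev 0).2
          calc ∑ i : Fin (k + 1), β i * x ((N : ℤ) - (i : ℕ)) ≤ ∑ i, β i * c :=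
                Finset.sum_le_sum fun i _ => mul_le_mul_of_nonneg_left (hprev i).2 (hβ i)
            _ = c * A := by rw [← Finset.sum_mul, ← hAβ, mul_comm]
            _ ≤ _ := mul_le_mul_of_nonneg_left hden h0c
  intro n hn
  exact key n.toNat n hn (Int.self_le_toNat n)

lemma stable (hA : 0 < A) (hβ : ∀ i, 0 ≤ β i) (hB : ∀ i, 0 ≤ B i) (hAβ : A = ∑ i, β i) :
    ZeroStable k A β B := by
  intro ε hε
  refine ⟨ε / 2, by linarith, fun x hx hsmall n hn => ?_⟩
  have := (bounds hA hβ hB hAβ hx (c := ε / 2) (fun j h1 h2 => (hsmall j h1 h2).le) n hn).2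
  linarith

/-- the set of lags with positive coefficient in the numerator -/
def lags (β : Fin (k + 1) → ℝ) : Set ℕ := {n | ∃ i : Fin (k + 1), 0 < β i ∧ n = i + 1}

/-- if some lag of the denominator is a multiple of the gcd of the lags of the numerator,
all solutions tend to zero -/
lemma attractive (hA : 0 < A) (hβ : ∀ i, 0 ≤ β i) (hB : ∀ i, 0 ≤ B i) (hAβ : A = ∑ i, β i)
    (i₀ : Fin (k + 1)) (hi₀ : 0 < B i₀) (hdvd : Nat.setGcd (lags β) ∣ i₀ + 1)
    {x : ℤ → ℝ} (hx : IsSolution k A β B x) : Tendsto (fun n : ℕ => x n) atTop (𝓝 0) := by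
  -- an upper bound of the solution
  obtain ⟨c, hc⟩ : ∃ c, ∀ j : ℤ, -(k : ℤ) ≤ j → j ≤ 0 → x j ≤ c := by
    have hfin : (Set.Icc (-(k : ℤ)) 0).Finite := Set.finite_Icc _ _
    obtain ⟨c, hc⟩ := (hfin.image x).bddAbove
    exact ⟨c, fun j h1 h2 => hc ⟨j, ⟨h1, h2⟩, rfl⟩⟩
  have hb := bounds hA hβ hB hAβ hx hc
  set f : ℕ → ℝ := fun n => x n with hf
  have hf0 : ∀ n, 0 ≤ f n := fun n => (hb n (by omega)).1
  have hfc : ∀ n, f n ≤ c := fun n => (hb n (by omega)).2
  have hbdd : IsBoundedUnder (· ≤ ·) atTop f := isBoundedUnder_of ⟨c, hfc⟩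
  have hcobdd : IsCoboundedUnder (· ≤ ·) atTop f :=
    (isBoundedUnder_of ⟨0, hf0⟩ : IsBoundedUnder (· ≥ ·) atTop f).isCoboundedUnder_le
  set Lm := limsup f atTop with hLm
  have hL0 : 0 ≤ Lm :=
    le_limsup_of_frequently_le (Frequently.of_forall hf0) hbdd
  by_cases hLz : Lm = 0
  · -- the upper limit is zero
    refine tendsto_order.2 ⟨fun b hb' => Eventually.of_forall fun n => lt_of_lt_of_le hb' (hf0 n),
      fun b hb' => ?_⟩
    exact eventually_lt_of_limsup_lt (by rw [← hLm, hLz]; exact hb') hbdd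
  · exfalso
    have hLpos : 0 < Lm := lt_of_le_of_ne hL0 (Ne.symm hLz)
    -- a subsequence converging to the upper limit
    have hfreq : ∀ n : ℕ, ∃ᶠ m in atTop, Lm - 1 / ((n : ℝ) + 1) < f m := by
      intro n
      exact frequently_lt_of_lt_limsup hcobdd (by
        rw [← hLm]
        have : (0 : ℝ) < 1 / ((n : ℝ) + 1) := by positivity
        linarith)
    obtain ⟨φ, hφmono, hφ⟩ := extraction_forall_of_frequently hfreq
    -- pointwise limit of the shifted sequences
    let Y : ℕ → (ℕ → ℝ) := fun n j => f (φ n - j)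
    have hYmem : ∀ n, Y n ∈ Set.pi Set.univ (fun _ : ℕ => Set.Icc (0 : ℝ) c) := by
      intro n j _
      exact ⟨hf0 _, hfc _⟩
    obtain ⟨y, -, ψ, hψmono, hψ⟩ :=
      (isCompact_univ_pi (fun _ : ℕ => (isCompact_Icc : IsCompact (Set.Icc (0 : ℝ) c)))
        ).tendsto_subseq hYmem
    rw [tendsto_pi_nhds] at hψ
    have hφψ : Tendsto (fun n => φ (ψ n)) atTop atTop :=
      hφmono.tendsto_atTop.comp hψmono.tendsto_atTop
    -- properties of the limit
    have hy_le : ∀ j, y j ≤ Lm := by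
      intro j
      by_contra hcon
      push Not at hcon
      obtain ⟨b, hb1, hb2⟩ := exists_between hcon
      have h1 : ∀ᶠ n in atTop, f n < b := eventually_lt_of_limsup_lt hb1 hbdd
      have h2 : Tendsto (fun n => φ (ψ n) - j) atTop atTop :=
        (tendsto_sub_atTop_nat j).comp hφψ
      have h3 : ∀ᶠ n in atTop, Y (ψ n) j < b := h2.eventually h1
      have h4 : y j ≤ b := le_of_tendsto (hψ j) (h3.mono fun n hn => hn.le)
      linarith
    have hy_zero : y 0 = Lm := by
      apply le_antisymm (hy_le 0)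
      have h1 : Tendsto (fun n : ℕ => Lm - 1 / ((ψ n : ℝ) + 1)) atTop (𝓝 (Lm - 0)) :=
        (tendsto_one_div_add_atTop_nhds_zero_nat.comp hψmono.tendsto_atTop).const_sub Lm
      rw [sub_zero] at h1
      refine le_of_tendsto_of_tendsto' h1 (hψ 0) fun n => ?_
      exact (hφ (ψ n)).le
    have hy_nonneg : ∀ j, 0 ≤ y j := fun j =>
      ge_of_tendsto' (hψ j) fun n => hf0 _
    have hrec : ∀ j : ℕ, y j * (A + ∑ i : Fin (k + 1), B i * y (j + 1 + i)) =
        ∑ i : Fin (k + 1), β i * y (j + 1 + i) := by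
      intro j
      have hstep : ∀ᶠ n in atTop, Y (ψ n) j * (A + ∑ i : Fin (k + 1), B i * Y (ψ n) (j + 1 + i)) =
          ∑ i : Fin (k + 1), β i * Y (ψ n) (j + 1 + i) := by
        filter_upwards [hφψ.eventually_ge_atTop (j + 1 + k)] with n hn
        have h1 : ∀ i : Fin (k + 1), Y (ψ n) (j + 1 + i) =
            x (((φ (ψ n) - j - 1 : ℕ) : ℤ) - (i : ℕ)) := by
          intro i
          have hi := i.2
          show x ((φ (ψ n) - (j + 1 + i) : ℕ) : ℤ) = _
          congr 1
          omega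
        have h2 : Y (ψ n) j = x (((φ (ψ n) - j - 1 : ℕ) : ℤ) + 1) := by
          show x ((φ (ψ n) - j : ℕ) : ℤ) = _
          congr 1
          omega
        simp only [h1]
        rw [h2, hx.2 _ (by omega)]
        apply div_mul_cancel₀
        have hpos := den_ge (A := A) (B := B) hB
          (y := fun i : Fin (k + 1) => x (((φ (ψ n) - j - 1 : ℕ) : ℤ) - (i : ℕ)))
          (fun i => by
            have hi := i.2
            exact (hb _ (by omega)).1)
        linarith
      have hl : Tendsto (fun n => Y (ψ n) j *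
          (A + ∑ i : Fin (k + 1), B i * Y (ψ n) (j + 1 + i))) atTop
          (𝓝 (y j * (A + ∑ i : Fin (k + 1), B i * y (j + 1 + i)))) := by
        refine (hψ j).mul (tendsto_const_nhds.add (tendsto_finsetSum _ fun i _ => ?_))
        exact (hψ (j + 1 + i)).const_mul (B i)
      have hr : Tendsto (fun n => ∑ i : Fin (k + 1), β i * Y (ψ n) (j + 1 + i)) atTop
          (𝓝 (∑ i : Fin (k + 1), β i * y (j + 1 + i))) := by
        refine tendsto_finsetSum _ fun i _ => ?_
        exact (hψ (j + 1 + i)).const_mul (β i)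
      exact tendsto_nhds_unique (hl.congr' hstep) hr
    -- the maximum propagates backwards
    have hprop : ∀ j : ℕ, y j = Lm →
        (∀ i : Fin (k + 1), 0 < β i → y (j + 1 + i) = Lm) ∧
        (∀ i : Fin (k + 1), 0 < B i → y (j + 1 + i) = 0) := by
      intro j hj
      have h1 := hrec j
      rw [hj] at h1
      have h2 : Lm * ∑ i : Fin (k + 1), B i * y (j + 1 + i) +
          ∑ i : Fin (k + 1), β i * (Lm - y (j + 1 + i)) = 0 := by
        have h3 : ∑ i : Fin (k + 1), β i * (Lm - y (j + 1 + i)) =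
            A * Lm - ∑ i : Fin (k + 1), β i * y (j + 1 + i) := by
          rw [hAβ, Finset.sum_mul, ← Finset.sum_sub_distrib]
          exact Finset.sum_congr rfl fun i _ => by ring
        rw [h3]
        linarith
      have h4 : 0 ≤ ∑ i : Fin (k + 1), B i * y (j + 1 + i) :=
        Finset.sum_nonneg fun i _ => mul_nonneg (hB i) (hy_nonneg _)
      have h5 : 0 ≤ ∑ i : Fin (k + 1), β i * (Lm - y (j + 1 + i)) :=
        Finset.sum_nonneg fun i _ => mul_nonneg (hβ i) (sub_nonneg.2 (hy_le _))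
      have h6 : 0 ≤ Lm * ∑ i : Fin (k + 1), B i * y (j + 1 + i) := mul_nonneg hL0 h4
      have h7 : ∑ i : Fin (k + 1), β i * (Lm - y (j + 1 + i)) = 0 := by linarith
      have h8 : ∑ i : Fin (k + 1), B i * y (j + 1 + i) = 0 := by
        have : Lm * ∑ i : Fin (k + 1), B i * y (j + 1 + i) = 0 := by linarith
        rcases mul_eq_zero.1 this with h | h
        · exact absurd h hLz
        · exact h
      rw [Finset.sum_eq_zero_iff_of_nonneg
        (fun i _ => mul_nonneg (hβ i) (sub_nonneg.2 (hy_le _)))] at h7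
      rw [Finset.sum_eq_zero_iff_of_nonneg
        (fun i _ => mul_nonneg (hB i) (hy_nonneg _))] at h8
      constructor
      · intro i hi
        have := h7 i (Finset.mem_univ _)
        rcases mul_eq_zero.1 this with h | h
        · exact absurd h hi.ne'
        · linarith
      · intro i hi
        have := h8 i (Finset.mem_univ _)
        rcases mul_eq_zero.1 this with h | h
        · exact absurd h hi.ne'
        · exact h
    have hclos : ∀ s ∈ AddSubmonoid.closure (lags β), y s = Lm := by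
      have haux : ∀ s ∈ AddSubmonoid.closure (lags β), ∀ t, y t = Lm → y (t + s) = Lm := by
        intro s hs
        refine AddSubmonoid.closure_induction
          (motive := fun s _ => ∀ t, y t = Lm → y (t + s) = Lm) ?_ ?_ ?_ hs
        · rintro s ⟨i, hi, rfl⟩ t ht
          have := (hprop t ht).1 i hi
          rw [show t + ((i : ℕ) + 1) = t + 1 + i by ring]
          exact this
        · intro t ht
          simpa using ht
        · intro s s' _ _ h1 h2 t ht
          rw [← add_assoc]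
          exact h2 _ (h1 t ht)
      intro s hs
      have := haux s hs 0 hy_zero
      rwa [zero_add] at this
    obtain ⟨n₀, hn₀⟩ := Nat.exists_mem_closure_of_ge (s := lags β)
    have hd : Nat.setGcd (lags β) ≠ 0 := by
      rintro h
      rw [Nat.setGcd_eq_zero_iff] at h
      have hpos : 0 < ∑ i, β i := hAβ ▸ hA
      obtain ⟨i, -, hi⟩ := Finset.exists_lt_of_sum_lt (s := Finset.univ)
        (f := fun _ : Fin (k + 1) => (0 : ℝ)) (g := β) (by simpa using hpos)
      have : ((i : ℕ) + 1) ∈ lags β := ⟨i, hi, rfl⟩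
      have := h this
      simp at this
    set dd := Nat.setGcd (lags β) with hdd
    have h1 : y (dd * n₀) = Lm := by
      apply hclos
      apply hn₀ _ _ (Dvd.intro _ rfl)
      exact Nat.le_mul_of_pos_left _ (Nat.pos_of_ne_zero hd)
    have h2 : y (dd * n₀ + 1 + i₀) = Lm := by
      apply hclos
      rw [show dd * n₀ + 1 + (i₀ : ℕ) = dd * n₀ + (i₀ + 1) by ring]
      apply hn₀ _ _ (Dvd.dvd.add (Dvd.intro _ rfl) hdvd)
      have := Nat.le_mul_of_pos_left n₀ (Nat.pos_of_ne_zero hd)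
      show n₀ ≤ _
      omega
    have h3 := (hprop _ h1).2 i₀ hi₀
    rw [h3] at h2
    exact hLz h2.symm

/-- if no lag of the denominator is a multiple of the gcd of the lags of the numerator,
the indicator of the multiples of the gcd is a solution, of prime period at least two -/
lemma periodic (hA : 0 < A) (hAβ : A = ∑ i, β i) (hβ : ∀ i, 0 ≤ β i) (hB : ∀ i, 0 ≤ B i)
    (hBpos : 0 < ∑ i, B i)
    (hno : ∀ i : Fin (k + 1), 0 < B i → ¬ Nat.setGcd (lags β) ∣ i + 1) :
    ∃ x : ℤ → ℝ, ∃ p : ℕ, 2 ≤ p ∧ IsSolution k A β B x ∧ HasPrimePeriod k x p := by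
  set dd := Nat.setGcd (lags β) with hdd
  have hlag : ∀ i : Fin (k + 1), 0 < β i → dd ∣ i + 1 := fun i hi =>
    Nat.setGcd_dvd_of_mem ⟨i, hi, rfl⟩
  have hd0 : dd ≠ 0 := by
    have hpos : 0 < ∑ i, β i := hAβ ▸ hA
    obtain ⟨i, -, hi⟩ := Finset.exists_lt_of_sum_lt (s := Finset.univ)
      (f := fun _ : Fin (k + 1) => (0 : ℝ)) (g := β) (by simpa using hpos)
    intro h
    have := hlag i hi
    rw [h, Nat.zero_dvd] at this
    omega
  have hd1 : dd ≠ 1 := by
    obtain ⟨i, -, hi⟩ := Finset.exists_lt_of_sum_lt (s := Finset.univ)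
      (f := fun _ : Fin (k + 1) => (0 : ℝ)) (g := B) (by simpa using hBpos)
    intro h
    exact hno i hi (by rw [h]; exact one_dvd _)
  classical
  refine ⟨fun n => if (dd : ℤ) ∣ n then 1 else 0, dd, by omega, ⟨?_, ?_⟩, ⟨?_, ?_⟩⟩
  · intro j _ _
    show (0 : ℝ) ≤ if (dd : ℤ) ∣ j then 1 else 0
    split_ifs <;> norm_num
  · intro n _
    show (if (dd : ℤ) ∣ n + 1 then (1 : ℝ) else 0) = _
    by_cases h : (dd : ℤ) ∣ n + 1
    · have h1 : ∀ i : Fin (k + 1), β i * (if (dd : ℤ) ∣ n - (i : ℕ) then (1 : ℝ) else 0) = β i := by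
        intro i
        rcases (hβ i).lt_or_eq with hi | hi
        · have h2 : (dd : ℤ) ∣ ((i : ℕ) + 1 : ℤ) := by exact_mod_cast hlag i hi
          have h3 : (dd : ℤ) ∣ n - (i : ℕ) := by
            have := dvd_sub h h2
            rwa [show n + 1 - ((i : ℕ) + 1 : ℤ) = n - (i : ℕ) by ring] at this
          rw [if_pos h3, mul_one]
        · rw [← hi, zero_mul]
      have h4 : ∀ i : Fin (k + 1), B i * (if (dd : ℤ) ∣ n - (i : ℕ) then (1 : ℝ) else 0) = 0 := by
        intro i
        rcases (hB i).lt_or_eq with hi | hi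
        · have h3 : ¬ (dd : ℤ) ∣ n - (i : ℕ) := by
            intro h5
            apply hno i hi
            have := dvd_sub h h5
            rw [show n + 1 - (n - (i : ℕ)) = (((i : ℕ) + 1 : ℕ) : ℤ) by push_cast; ring] at this
            exact_mod_cast this
          rw [if_neg h3, mul_zero]
        · rw [← hi, zero_mul]
      rw [if_pos h, Finset.sum_congr rfl fun i _ => h1 i, Finset.sum_congr rfl fun i _ => h4 i,
        Finset.sum_const_zero, add_zero, ← hAβ, div_self hA.ne']
    · have h1 : ∀ i : Fin (k + 1), β i * (if (dd : ℤ) ∣ n - (i : ℕ) then (1 : ℝ) else 0) = 0 := by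
        intro i
        rcases (hβ i).lt_or_eq with hi | hi
        · have h2 : (dd : ℤ) ∣ ((i : ℕ) + 1 : ℤ) := by exact_mod_cast hlag i hi
          have h3 : ¬ (dd : ℤ) ∣ n - (i : ℕ) := by
            intro h5
            apply h
            have := dvd_add h5 h2
            rwa [show n - (i : ℕ) + ((i : ℕ) + 1 : ℤ) = n + 1 by ring] at this
          rw [if_neg h3, mul_zero]
        · rw [← hi, zero_mul]
      rw [if_neg h, Finset.sum_congr rfl fun i _ => h1 i, Finset.sum_const_zero, zero_div]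
  · refine ⟨by omega, fun n _ => ?_⟩
    show (if (dd : ℤ) ∣ n + dd then (1 : ℝ) else 0) = if (dd : ℤ) ∣ n then 1 else 0
    simp
  · rintro q ⟨hq1, hq⟩
    have h1 := hq 0 (by omega)
    have h2 : (dd : ℤ) ∣ (q : ℤ) := by
      by_contra hcon
      simp [hcon] at h1
    have h3 : dd ∣ q := by exact_mod_cast h2
    exact Nat.le_of_dvd (by omega) h3

end

/-- If `A = ∑ β i` and the recurrence has no solution of prime period at least two, then its zero
equilibrium is globally asymptotically stable. -/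
theorem result (k : ℕ) (A : ℝ) (β B : Fin (k + 1) → ℝ) (hA : 0 < A)
    (hβ : ∀ i, 0 ≤ β i) (hB : ∀ i, 0 ≤ B i) (hBpos : 0 < ∑ i, B i) (hAβ : A = ∑ i, β i)
    (hper : ¬ ∃ x : ℤ → ℝ, ∃ p : ℕ, 2 ≤ p ∧ IsSolution k A β B x ∧ HasPrimePeriod k x p) :
    ZeroGloballyAsymptoticallyStable k A β B := by
  refine ⟨stable hA hβ hB hAβ, fun x hx => ?_⟩
  by_cases h : ∃ i : Fin (k + 1), 0 < B i ∧ Nat.setGcd (lags β) ∣ i + 1
  · obtain ⟨i₀, hi₀, hdvd⟩ := h
    exact attractive hA hβ hB hAβ i₀ hi₀ hdvd hx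
  · push Not at h
    exact absurd (periodic hA hAβ hβ hB hBpos h) hper

end Pool.Agent.Results.MP_2e7467_an.PeriodDichotomy
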